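import Pool.Agent.Helper8.B.Defs
import Pool.Agent.Helper8.D.Setup

/-!
Ball quotient type: the rotations at a place are symmetries (definition of `HasRot`).
-/

namespace Pool.Agent.Ball

open Module Matrix Pool.Agent.Helper7 NumberField
open Pool.Agent.Helper8.D (ent)

section final

variable {κ : Type} [Fintype κ] [DecidableEq κ] {ϖ : ℂ}
    (P : PData κ ϖ) {K : Type} [Field K] [NumberField K] {m : ℕ}
    (F : UF P K m) {k : ℕ}
    (α : (HW (fun _ : Unit => κ) (fun _ => 1)) [⋀^Fin (2 * k)]→ₗ[ℂ] ℂ)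

/-- the rotations at a place are symmetries -/
def HasRot (σ : K →+* ℂ) : Prop :=
  ∃ U V : Matrix (Fin m) (Fin m) ℂ, U * V = 1 ∧ V * U = 1 ∧ ∀ i j,
    ∃ X : GG (fun _ : Unit => κ), IsInv (fun _ => 1) (fun _ : Unit => P)
        (α : MultilinearMap ℂ (fun _ : Fin (2 * k) => HW (fun _ : Unit => κ) (fun _ => 1)) ℂ) X ∧
      X.2 = 0 ∧ ent F σ (X.1 ()) = U * rot i j * V ∧
      ∀ τ, τ ≠ σ → τ ≠ ComplexEmbedding.conjugate σ → ent F τ (X.1 ()) = 0

end final

end Pool.Agent.Ball
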