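import Pool.Agent.Helper12.Ball.M7
import Pool.Agent.Helper20.Ball.RotDef
import Pool.Agent.Helper36.Ball.M5p
import Pool.Agent.Helper7.J8

/-!
Ball quotient type, module M9a: the conclusion from rotations at all places.
-/

open scoped ComplexConjugate

namespace Pool.Agent.Ball

open Module Matrix Pool.Agent.Helper7 NumberField
open Pool.Agent.Helper8.D (ent ent_apply ent_act)

section place

variable {κ : Type} [Fintype κ] [DecidableEq κ] {ϖ : ℂ} {P : PData κ ϖ} {K : Type} [Field K]
    [NumberField K] {m : ℕ} (F : UF P K m)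

/-- vectors of an eigenspace in adapted coordinates -/
noncomputable def vc (σ : K →+* ℂ) : (Fin m → ℂ) →ₗ[ℂ] (κ → ℂ) where
  toFun x := ∑ a, x a • F.e σ a
  map_add' x y := by simp [add_smul, Finset.sum_add_distrib]
  map_smul' c x := by simp [Finset.smul_sum, smul_smul]

lemma vc_apply (σ : K →+* ℂ) (x : Fin m → ℂ) : vc F σ x = ∑ a, x a • F.e σ a := rfl

lemma vc_act (σ : K →+* ℂ) (X : Module.End ℂ (κ → ℂ)) (hX : F.Comm X) (x : Fin m → ℂ) :
    X (vc F σ x) = vc F σ (ent F σ X *ᵥ x) := by
  rw [vc_apply, vc_apply, map_sum]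
  have h1 : ∀ a, X (x a • F.e σ a) = ∑ c, (ent F σ X c a * x a) • F.e σ c := by
    intro a
    rw [map_smul, ent_act F σ X hX, Finset.smul_sum]
    refine Finset.sum_congr rfl fun c _ => ?_
    rw [smul_smul, mul_comm]
  rw [Finset.sum_congr rfl fun a _ => h1 a, Finset.sum_comm]
  refine Finset.sum_congr rfl fun c _ => ?_
  rw [← Finset.sum_smul]
  rfl

lemma vc_psi_zero (σ τ : K →+* ℂ) (h : τ ≠ ComplexEmbedding.conjugate σ) (x y : Fin m → ℂ) :
    P.ψ (vc F σ x) (vc F τ y) = 0 := by
  rw [vc_apply, vc_apply, map_sum P.ψ, LinearMap.sum_apply]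
  refine Finset.sum_eq_zero fun a _ => ?_
  rw [map_sum]
  refine Finset.sum_eq_zero fun c _ => ?_
  rw [map_smul, map_smul, LinearMap.smul_apply, F.psi_e σ τ a c h, smul_zero, smul_zero]

/-- the pairing of conjugate eigenspaces -/
noncomputable def gram (σ : K →+* ℂ) : Matrix (Fin m) (Fin m) ℂ :=
  Matrix.of fun a c => P.ψ (F.e σ a) (F.e (ComplexEmbedding.conjugate σ) c)

lemma vc_psi (σ : K →+* ℂ) (x y : Fin m → ℂ) :
    P.ψ (vc F σ x) (vc F (ComplexEmbedding.conjugate σ) y) = x ⬝ᵥ (gram F σ *ᵥ y) := by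
  rw [vc_apply, vc_apply, map_sum P.ψ, LinearMap.sum_apply, dotProduct]
  refine Finset.sum_congr rfl fun a _ => ?_
  rw [map_smul, LinearMap.smul_apply, smul_eq_mul, map_sum, Matrix.mulVec, dotProduct]
  congr 1
  refine Finset.sum_congr rfl fun c _ => ?_
  rw [map_smul, smul_eq_mul, mul_comm]
  rfl

lemma vc_proj (σ τ : K →+* ℂ) (x : Fin m → ℂ) :
    proj F.ρ τ (vc F σ x) = open Classical in if τ = σ then vc F σ x else 0 := by
  classical
  rw [vc_apply, map_sum]
  by_cases h : τ = σ
  · rw [if_pos h]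
    refine Finset.sum_congr rfl fun a _ => ?_
    rw [map_smul, F.proj_e, if_pos h]
  · rw [if_neg h]
    refine Finset.sum_eq_zero fun a _ => ?_
    rw [map_smul, F.proj_e, if_neg h, smul_zero]

lemma vc_inj (σ : K →+* ℂ) (x : Fin m → ℂ) (h : vc F σ x = 0) : x = 0 := by
  funext a
  have h2 := congrArg (F.co σ a) h
  rw [vc_apply, map_sum, map_zero, Finset.sum_eq_single a] at h2
  · rwa [map_smul, F.co_e, if_pos ⟨rfl, rfl⟩, smul_eq_mul, mul_one] at h2
  · intro b' _ hb
    rw [map_smul, F.co_e, if_neg (fun h => hb h.2.symm), smul_zero]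
  · intro h; exact absurd (Finset.mem_univ _) h

lemma gram_det (σ : K →+* ℂ) : (gram F σ).det ≠ 0 := by
  intro h0
  obtain ⟨v, hv0, hv⟩ := Matrix.exists_vecMul_eq_zero_iff.mpr h0
  apply hv0
  apply vc_inj F σ
  apply P.hψnd
  intro u
  refine F.ext_e (P.ψ (vc F σ v)) 0 (fun τ c => ?_) u
  have h1 : F.e τ c = vc F τ (Pi.single c 1) := by
    rw [vc_apply, Finset.sum_eq_single c]
    · rw [Pi.single_eq_same, one_smul]
    · intro b _ hb
      rw [Pi.single_eq_of_ne hb, zero_smul]
    · intro h; exact absurd (Finset.mem_univ _) h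
  rw [h1, LinearMap.zero_apply]
  by_cases hτ : τ = ComplexEmbedding.conjugate σ
  · subst hτ
    rw [vc_psi, Matrix.dotProduct_mulVec, hv, zero_dotProduct]
  · rw [vc_psi_zero F σ τ hτ]

/-- the dual frame -/
noncomputable def dualF (σ : K →+* ℂ) (V : Matrix (Fin m) (Fin m) ℂ) :
    Matrix (Fin m) (Fin m) ℂ := (gram F σ)⁻¹ * Vᵀ

lemma psi_dual (σ : K →+* ℂ) (U V : Matrix (Fin m) (Fin m) ℂ) (hVU : V * U = 1)
    (x y : Fin m → ℂ) :
    P.ψ (vc F σ (U *ᵥ x)) (vc F (ComplexEmbedding.conjugate σ) (dualF F σ V *ᵥ y)) = x ⬝ᵥ y := by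
  have hu : IsUnit (gram F σ).det := isUnit_iff_ne_zero.mpr (gram_det F σ)
  rw [vc_psi, Matrix.mulVec_mulVec, dualF, ← Matrix.mul_assoc, Matrix.mul_nonsing_inv _ hu,
    Matrix.one_mul, Matrix.mulVec_transpose, dotProduct_comm, ← Matrix.dotProduct_mulVec,
    Matrix.mulVec_mulVec, hVU, Matrix.one_mulVec, dotProduct_comm]

lemma rot_single (i j : Fin m) (hij : i ≠ j) (l : Fin m) :
    rot i j *ᵥ (Pi.single l 1) =
      if l = i then - Pi.single j 1 else if l = j then Pi.single i 1 else 0 := by
  rw [rot, Matrix.sub_mulVec, Matrix.single_mulVec, Matrix.single_mulVec]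
  by_cases h : l = i
  · subst h
    rw [if_pos rfl]
    funext a
    simp [Function.update_apply, Pi.single_apply, hij.symm]
  · rw [if_neg h]
    by_cases h' : l = j
    · subst h'
      rw [if_pos rfl]
      funext a
      simp [Function.update_apply, Pi.single_apply, hij]
    · rw [if_neg h']
      funext a
      simp [Ne.symm h, Ne.symm h']

/-- adapted vectors at all places -/
noncomputable def bv (U V : InfinitePlace K → Matrix (Fin m) (Fin m) ℂ) :
    InfinitePlace K × Fin m × Bool → (κ → ℂ)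
  | (s, j, false) => vc F s.embedding (U s *ᵥ Pi.single j 1)
  | (s, j, true) => vc F (ComplexEmbedding.conjugate s.embedding)
      (dualF F s.embedding (V s) *ᵥ Pi.single j 1)

omit [NumberField K] in
lemma cj_cj (σ : K →+* ℂ) : ComplexEmbedding.conjugate (ComplexEmbedding.conjugate σ) = σ :=
  RingHom.ext fun x => by
    rw [ComplexEmbedding.conjugate_coe_eq, ComplexEmbedding.conjugate_coe_eq, Complex.conj_conj]

omit [NumberField K] in
lemma emb_ne {s t : InfinitePlace K} (h : s ≠ t) :
    s.embedding ≠ t.embedding ∧ s.embedding ≠ ComplexEmbedding.conjugate t.embedding := by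
  constructor
  · intro h'
    apply h
    rw [← InfinitePlace.mk_embedding s, h', InfinitePlace.mk_embedding]
  · intro h'
    apply h
    rw [← InfinitePlace.mk_embedding s, ← InfinitePlace.mk_embedding t, InfinitePlace.mk_eq_iff]
    right
    rw [h', cj_cj]

section pairing

variable (U V : InfinitePlace K → Matrix (Fin m) (Fin m) ℂ) (hVU : ∀ s, V s * U s = 1)
  (hc : ∀ σ : K →+* ℂ, ComplexEmbedding.conjugate σ ≠ σ)

include hc in
lemma bv_ff (s t : InfinitePlace K) (i j : Fin m) :
    P.ψ (bv F U V (s, i, false)) (bv F U V (t, j, false)) = 0 := by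
  apply vc_psi_zero
  by_cases h : t = s
  · subst h; exact fun h' => hc _ h'.symm
  · exact (emb_ne h).2

include hc in
lemma bv_tt (s t : InfinitePlace K) (i j : Fin m) :
    P.ψ (bv F U V (s, i, true)) (bv F U V (t, j, true)) = 0 := by
  apply vc_psi_zero
  rw [cj_cj]
  by_cases h : t = s
  · subst h; exact hc _
  · intro h'
    exact (emb_ne (Ne.symm h)).2 h'.symm

include hVU in
lemma bv_ft (s t : InfinitePlace K) (i j : Fin m) :
    P.ψ (bv F U V (s, i, false)) (bv F U V (t, j, true)) =
      open Classical in if s = t ∧ i = j then 1 else 0 := by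
  classical
  by_cases h : s = t
  · subst h
    show P.ψ (vc F s.embedding (U s *ᵥ Pi.single i 1))
      (vc F (ComplexEmbedding.conjugate s.embedding)
        (dualF F s.embedding (V s) *ᵥ Pi.single j 1)) = _
    rw [psi_dual F s.embedding (U s) (V s) (hVU s), dotProduct_single, mul_one,
      Pi.single_apply]
    by_cases h' : i = j
    · rw [if_pos h'.symm, if_pos ⟨rfl, h'⟩]
    · rw [if_neg (Ne.symm h'), if_neg (fun h => h' h.2)]
  · rw [if_neg (fun h' => h h'.1)]
    apply vc_psi_zero
    intro h'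
    apply (emb_ne h).1
    rw [← cj_cj s.embedding, ← h', cj_cj]

include hVU hc in
lemma bv_indep : LinearIndependent ℂ (bv F U V) := by
  classical
  rw [Fintype.linearIndependent_iff]
  intro g hg
  rintro ⟨s, i, ε⟩
  cases ε
  · have h1 := congrArg (fun w => P.ψ w (bv F U V (s, i, true))) hg
    simp only [map_sum, LinearMap.sum_apply, map_smul, LinearMap.smul_apply, map_zero,
      LinearMap.zero_apply] at h1
    rw [Finset.sum_eq_single (s, i, false)] at h1
    · rwa [bv_ft F U V hVU, if_pos ⟨rfl, rfl⟩, smul_eq_mul, mul_one] at h1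
    · rintro ⟨t, j, δ⟩ _ hne
      cases δ
      · rw [bv_ft F U V hVU, if_neg, smul_zero]
        rintro ⟨rfl, rfl⟩
        exact hne rfl
      · rw [bv_tt F U V hc, smul_zero]
    · intro h; exact absurd (Finset.mem_univ _) h
  · have h1 := congrArg (fun w => P.ψ (bv F U V (s, i, false)) w) hg
    simp only [map_sum, map_smul, map_zero] at h1
    rw [Finset.sum_eq_single (s, i, true)] at h1
    · rwa [bv_ft F U V hVU, if_pos ⟨rfl, rfl⟩, smul_eq_mul, mul_one] at h1
    · rintro ⟨t, j, δ⟩ _ hne
      cases δ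
      · rw [bv_ff F U V hc, smul_zero]
      · rw [bv_ft F U V hVU, if_neg, smul_zero]
        rintro ⟨rfl, rfl⟩
        exact hne rfl
    · intro h; exact absurd (Finset.mem_univ _) h

omit [Fintype κ] [DecidableEq κ] in
include hc in
lemma card_emb_cplx : Fintype.card (K →+* ℂ) = 2 * Fintype.card (InfinitePlace K) := by
  classical
  have h1 := InfinitePlace.card_eq_nrRealPlaces_add_nrComplexPlaces K
  have h2 := InfinitePlace.card_add_two_mul_card_eq_rank K
  have h3 := InfinitePlace.card_real_embeddings K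
  rw [Embeddings.card K ℂ]
  have h4 : Fintype.card { φ : K →+* ℂ // ComplexEmbedding.IsReal φ } = 0 := by
    rw [Fintype.card_eq_zero_iff]
    exact ⟨fun φ => hc φ.1 φ.2⟩
  omega

include F hc in
lemma card_bv : Fintype.card κ = 2 * (m * Fintype.card (InfinitePlace K)) := by
  have h1 := Module.finrank_eq_card_basis F.eb
  rw [Module.finrank_fintype_fun_eq_card, Fintype.card_prod, card_emb_cplx hc,
    Fintype.card_fin] at h1
  rw [h1]
  ring

/-- the adapted basis -/
noncomputable def bB : Basis (InfinitePlace K × Fin m × Bool) ℂ (κ → ℂ) :=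
  basisOfLinearIndependentOfCardEqFinrank' (bv F U V) (bv_indep F U V hVU hc) (by
    rw [Module.finrank_fintype_fun_eq_card, card_bv F hc, Fintype.card_prod, Fintype.card_prod,
      Fintype.card_fin, Fintype.card_bool]
    ring)

lemma bB_apply (x : InfinitePlace K × Fin m × Bool) : bB F U V hVU hc x = bv F U V x := by
  rw [bB, coe_basisOfLinearIndependentOfCardEqFinrank']

lemma psi_lo (s : InfinitePlace K) (i : Fin m) (w : κ → ℂ) :
    P.ψ (bv F U V (s, i, false)) w = (bB F U V hVU hc).coord (s, i, true) w := by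
  classical
  have h : P.ψ (bv F U V (s, i, false)) = (bB F U V hVU hc).coord (s, i, true) := by
    apply (bB F U V hVU hc).ext
    rintro ⟨t, j, δ⟩
    rw [Basis.coord_apply, Basis.repr_self, bB_apply, Finsupp.single_apply]
    cases δ
    · rw [bv_ff F U V hc, if_neg (fun h => by simp at h)]
    · rw [bv_ft F U V hVU]
      by_cases h : s = t ∧ i = j
      · rw [if_pos h, if_pos (by rw [h.1, h.2])]
      · rw [if_neg h, if_neg]
        intro h'
        rw [Prod.mk.injEq, Prod.mk.injEq] at h'
        exact h ⟨h'.1.symm, h'.2.1.symm⟩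
  rw [h]

include hc in
lemma proj_bv (s t : InfinitePlace K) (i : Fin m) (ε : Bool) :
    proj F.ρ s.embedding (bv F U V (t, i, ε)) =
      open Classical in if t = s ∧ ε = false then bv F U V (t, i, ε) else 0 := by
  classical
  cases ε
  · show proj F.ρ s.embedding (vc F _ _) = _
    rw [vc_proj]
    by_cases h : t = s
    · subst h
      rw [if_pos rfl, if_pos ⟨rfl, rfl⟩]
      rfl
    · rw [if_neg (emb_ne (Ne.symm h)).1, if_neg (fun h' => h h'.1)]
  · show proj F.ρ s.embedding (vc F _ _) = _
    rw [vc_proj, if_neg, if_neg (fun h' => by simp at h')]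
    by_cases h : t = s
    · subst h
      exact fun h' => hc _ h'.symm
    · exact (emb_ne (Ne.symm h)).2

/-- the pairing at a place -/
lemma pair_eq (s : InfinitePlace K) (u v : κ → ℂ) :
    P.ψ (proj F.ρ s.embedding u) v =
      ∑ i, (bB F U V hVU hc).coord (s, i, false) u * (bB F U V hVU hc).coord (s, i, true) v := by
  classical
  have h : P.ψ ∘ₗ proj F.ρ s.embedding =
      ∑ i, (LinearMap.mul ℂ ℂ).compl₁₂ ((bB F U V hVU hc).coord (s, i, false))
        ((bB F U V hVU hc).coord (s, i, true)) := by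
    apply (bB F U V hVU hc).ext
    rintro ⟨t, j, δ⟩
    apply LinearMap.ext
    intro v
    rw [LinearMap.comp_apply, LinearMap.sum_apply, LinearMap.sum_apply, bB_apply,
      proj_bv F U V hc, ← bB_apply F U V hVU hc]
    simp only [LinearMap.compl₁₂_apply, LinearMap.mul_apply', Basis.coord_apply,
      Basis.repr_self, Finsupp.single_apply, Prod.mk.injEq]
    cases δ
    · by_cases h : t = s
      · subst h
        rw [if_pos ⟨rfl, rfl⟩, Finset.sum_eq_single j, bB_apply, psi_lo F U V hVU hc]
        · simp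
        · intro i _ hi
          simp [Ne.symm hi]
        · intro h; exact absurd (Finset.mem_univ _) h
      · simp [h]
    · simp
  have h2 := congrArg (fun f => f u v) h
  simp only [LinearMap.comp_apply, LinearMap.sum_apply, LinearMap.compl₁₂_apply,
    LinearMap.mul_apply'] at h2
  exact h2

include hVU hc in
/-- rotations in adapted coordinates -/
lemma rot_bv (X : Module.End ℂ (κ → ℂ)) (hX : F.Comm X)
    (hψ : ∀ u v, P.ψ (X u) v + P.ψ u (X v) = 0) (s : InfinitePlace K) (i j : Fin m) (hij : i ≠ j)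
    (hs : ent F s.embedding X = U s * rot i j * V s)
    (h0 : ∀ τ, τ ≠ s.embedding → τ ≠ ComplexEmbedding.conjugate s.embedding → ent F τ X = 0)
    (t : InfinitePlace K) (l : Fin m) (ε : Bool) :
    X (bv F U V (t, l, ε)) =
      open Classical in if t = s ∧ l = i then - bv F U V (s, j, ε)
        else if t = s ∧ l = j then bv F U V (s, i, ε) else 0 := by
  classical
  -- the first half
  have hlo : ∀ (t : InfinitePlace K) (l : Fin m), X (bv F U V (t, l, false)) =
      if t = s ∧ l = i then - bv F U V (s, j, false)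
        else if t = s ∧ l = j then bv F U V (s, i, false) else 0 := by
    intro t l
    show X (vc F t.embedding (U t *ᵥ Pi.single l 1)) = _
    rw [vc_act F _ X hX]
    by_cases h : t = s
    · subst h
      have h1 : ent F t.embedding X *ᵥ (U t *ᵥ Pi.single l 1) =
          U t *ᵥ (rot i j *ᵥ Pi.single l 1) := by
        rw [hs, Matrix.mulVec_mulVec, Matrix.mul_assoc, hVU, Matrix.mul_one,
          ← Matrix.mulVec_mulVec]
      rw [h1, rot_single i j hij]
      by_cases h2 : l = i
      · rw [if_pos h2, if_pos ⟨rfl, h2⟩, Matrix.mulVec_neg, map_neg]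
        rfl
      · rw [if_neg h2, if_neg (fun h : t = t ∧ l = i => h2 h.2)]
        by_cases h3 : l = j
        · rw [if_pos h3, if_pos ⟨rfl, h3⟩]
          rfl
        · rw [if_neg h3, if_neg (fun h : t = t ∧ l = j => h3 h.2), Matrix.mulVec_zero,
            map_zero]
    · rw [h0 _ (emb_ne h).1 (emb_ne h).2, Matrix.zero_mulVec, map_zero,
        if_neg (fun h' => h h'.1), if_neg (fun h' => h h'.1)]
  cases ε
  · exact hlo t l
  -- the second half by duality
  have hx : ∀ w : κ → ℂ, P.ψ w (X (bv F U V (t, l, true))) =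
      P.ψ w (if t = s ∧ l = i then - bv F U V (s, j, true)
        else if t = s ∧ l = j then bv F U V (s, i, true) else 0) := by
    intro w
    have h1 : P.ψ.flip (X (bv F U V (t, l, true))) =
      P.ψ.flip (if t = s ∧ l = i then - bv F U V (s, j, true)
        else if t = s ∧ l = j then bv F U V (s, i, true) else 0) := by
      apply (bB F U V hVU hc).ext
      rintro ⟨t', l', δ⟩
      rw [LinearMap.flip_apply, LinearMap.flip_apply, bB_apply]
      have h2 := hψ (bv F U V (t', l', δ)) (bv F U V (t, l, true))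
      rw [add_comm] at h2
      rw [eq_neg_of_add_eq_zero_left h2]
      cases δ
      · rw [hlo]
        split_ifs <;> simp only [map_neg, LinearMap.neg_apply, map_zero, LinearMap.zero_apply,
          bv_ft F U V hVU, neg_neg, neg_zero] <;> split_ifs <;> grind
      · have h3 : P.ψ (X (bv F U V (t', l', true))) (bv F U V (t, l, true)) = 0 := by
          show P.ψ (X (vc F _ _)) (vc F _ _) = 0
          rw [vc_act F _ X hX]
          apply vc_psi_zero
          rw [cj_cj]
          by_cases h : t = t'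
          · subst h; exact hc _
          · intro h'
            exact (emb_ne (Ne.symm h)).2 h'.symm
        rw [h3, neg_zero]
        split_ifs
        · rw [map_neg, bv_tt F U V hc, neg_zero]
        · rw [bv_tt F U V hc]
        · rw [map_zero]
    exact congrArg (fun f => f w) h1
  have h5 : X (bv F U V (t, l, true)) - (if t = s ∧ l = i then - bv F U V (s, j, true)
        else if t = s ∧ l = j then bv F U V (s, i, true) else 0) = 0 := by
    apply P.hψnd
    intro w
    rw [P.hψalt, map_sub, hx, sub_self, neg_zero]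
  exact sub_eq_zero.mp h5

end pairing

end place

section final

variable {κ : Type} [Fintype κ] [DecidableEq κ] {ϖ : ℂ}
    (P : PData κ ϖ) {K : Type} [Field K] [NumberField K] {m : ℕ}
    (F : UF P K m) {k : ℕ}
    (α : (HW (fun _ : Unit => κ) (fun _ => 1)) [⋀^Fin (2 * k)]→ₗ[ℂ] ℂ)

/-- the product with one factor -/
def oneEq (κ : Type) : (κ → ℂ) ≃ₗ[ℂ] HW (fun _ : Unit => κ) (fun _ => 1) where
  toFun w := fun _ _ => w
  map_add' _ _ := rfl
  map_smul' _ _ := rfl
  invFun v := v () 0
  left_inv _ := rfl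
  right_inv v := by
    funext i j
    rw [Subsingleton.elim i (), Subsingleton.elim j 0]

omit [Fintype κ] [DecidableEq κ] in
lemma oneEq_lift (N : (_ : Unit) → Module.End ℂ (κ → ℂ)) (w : κ → ℂ) :
    lift (κ := fun _ : Unit => κ) (fun _ => 1) N (oneEq κ w) = oneEq κ (N () w) := rfl

/-- M9a.  The conclusion from rotations at all places. -/
theorem M9a (hϖ : ϖ ≠ 0) (hc : ∀ σ : K →+* ℂ, ComplexEmbedding.conjugate σ ≠ σ)
    (hB : ∀ v : Fin (2 * k) → HW (fun _ : Unit => κ) (fun _ => 1),
      (∀ r, IsRatP (fun _ => 1) (fun _ : Unit => P) (v r)) →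
      ∃ q : ℚ, α v = ϖ ^ k * q)
    (hA : ∀ v : Fin (2 * k) → HW (fun _ : Unit => κ) (fun _ => 1),
      (∀ r i m j, IsAlgebraic ℚ (v r i m j)) → IsAlgebraic ℚ (α v))
    (hrot : ∀ σ : K →+* ℂ, HasRot P F α σ)
    (hk : 2 * k < detDeg m ∨ Fintype.card κ < 2 * k + detDeg m) :
    α ∈ Submodule.span ℚ {ω | ∃ γ : Fin k → (HW (fun _ : Unit => κ) (fun _ => 1) →ₗ[ℂ]
        HW (fun _ : Unit => κ) (fun _ => 1) →ₗ[ℂ] ℂ),
      (∀ a, γ a ∈ GW (fun _ => 1) (fun _ : Unit => P)) ∧ ω = wedge γ} := by
  classical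
  have hrot' : ∀ s : InfinitePlace K, HasRot P F α s.embedding := fun s => hrot _
  choose U V hUV hVU hX using hrot'
  choose X hXinv hX2 hXs hX0 using hX
  obtain ⟨b, hb⟩ : ∃ b : Basis (InfinitePlace K × Fin m × Bool) ℂ
      (HW (fun _ : Unit => κ) (fun _ => 1)), b = (bB F U V hVU hc).map (oneEq κ) := ⟨_, rfl⟩
  have hbx : ∀ x, b x = oneEq κ (bv F U V x) := by
    intro x
    rw [hb, Basis.map_apply, bB_apply]
  have hbc : ∀ x u, b.coord x u = (bB F U V hVU hc).coord x (u () 0) := by
    intro x u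
    rw [hb]
    rfl
  -- the span of the exterior products of the pairings
  have h1 : α ∈ Submodule.span ℂ {ω | ∃ f : Fin k → InfinitePlace K,
      ω = wedge (fun a => beta b (f a))} := by
    refine M7 b (fun s i j => lift (fun _ => 1) (X s i j).1) ?_ α ?_ ?_
    · intro s i j hij t l ε
      rw [hbx, hbx, hbx, oneEq_lift, rot_bv F U V hVU hc ((X s i j).1 ())
        (fun x v => (hXinv s i j).comm () () _ (F.hρ x) v)
        (fun u v => by
          have h := (hXinv s i j).pol () u v
          rw [hX2, zero_mul] at h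
          exact h) s i j hij (hXs s i j) (hX0 s i j) t l ε]
      split_ifs
      · rw [map_neg]
      · rfl
      · rw [map_zero]
    · intro s i j hij v
      have h := congrArg (fun f => f v) (hXinv s i j).form
      simp only [actForm_apply] at h
      rw [hX2, mul_zero, zero_smul] at h
      exact h
    · rw [card_bv F hc] at hk
      unfold detDeg at hk
      split_ifs at hk ⊢ <;> exact hk
  -- the pairings are invariant
  have hinv : ∀ s, beta b s ∈ invB (fun _ => 1) (fun _ : Unit => P)
      (α : MultilinearMap ℂ (fun _ : Fin (2 * k) => HW (fun _ : Unit => κ) (fun _ => 1)) ℂ) := by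
    intro s Y hY u v
    have hβ : ∀ u v : HW (fun _ : Unit => κ) (fun _ => 1), beta b s u v =
        P.ψ (proj F.ρ s.embedding (u () 0)) (v () 0) := by
      intro u v
      rw [pair_eq F U V hVU hc, beta, LinearMap.sum_apply, LinearMap.sum_apply]
      refine Finset.sum_congr rfl fun i _ => ?_
      rw [LinearMap.compl₁₂_apply, LinearMap.mul_apply', hbc, hbc]
    have hYc : F.Comm (Y.1 ()) := fun x v => hY.comm () () _ (F.hρ x) v
    rw [hβ, hβ, hβ]
    show P.ψ (proj F.ρ s.embedding (Y.1 () (u () 0))) (v () 0) +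
      P.ψ (proj F.ρ s.embedding (u () 0)) (Y.1 () (v () 0)) = _
    rw [← hYc.proj]
    exact hY.pol () _ _
  -- the complex span
  have h2 : α ∈ Submodule.span ℂ {ω | ∃ γ : Fin k → (HW (fun _ : Unit => κ) (fun _ => 1) →ₗ[ℂ]
        HW (fun _ : Unit => κ) (fun _ => 1) →ₗ[ℂ] ℂ),
      (∀ a, γ a ∈ GW (fun _ => 1) (fun _ : Unit => P)) ∧ ω = wedge γ} := by
    refine Submodule.span_le.mpr ?_ h1
    rintro _ ⟨f, rfl⟩
    exact wedge_mem_span (GW (fun _ => 1) (fun _ : Unit => P)) _
      (fun a => inv_mem_GW (fun _ => 1) (fun _ : Unit => P) _ hϖ hB hA _ (hinv (f a)))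
  refine rational_descent (FBP (fun _ => 1) (fun _ : Unit => P)) (ϖ ^ k) (pow_ne_zero _ hϖ) _ ?_ α
    (fun s => hB _ (fun r => FBP_isRatP _ _ _)) h2
  rintro ω ⟨γ, hγ, rfl⟩ s
  exact wedge_rational' (fun _ => 1) (fun _ : Unit => P) γ hγ _ (fun r => FBP_isRatP _ _ _)

end final

end Pool.Agent.Ball
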