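import Pool.Agent.Helper8.B.Defs

/-!
# A group preserving an indefinite Hermitian form and acting irreducibly has an element with an
eigenvalue of modulus different from one
-/

set_option autoImplicit false

open scoped ComplexConjugate InnerProductSpace

namespace Pool.Agent.Helper20.Ball

open Module Matrix Pool.Agent.Helper7 Pool.Agent.Ball

/-- the trace of a matrix whose eigenvalues have modulus one -/
theorem norm_trace_le {m : ℕ} (g : Matrix (Fin m) (Fin m) ℂ)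
    (h : ∀ (μ : ℂ) (v : Fin m → ℂ), v ≠ 0 → g *ᵥ v = μ • v → ‖μ‖ = 1) : ‖g.trace‖ ≤ m := by
  rw [Matrix.trace_eq_sum_roots_charpoly]
  refine (norm_multiset_sum_le _).trans ?_
  have h1 : ∀ x ∈ g.charpoly.roots.map (fun x => ‖x‖), x ≤ (1 : ℝ) := by
    intro x hx
    rw [Multiset.mem_map] at hx
    obtain ⟨μ, hμ, rfl⟩ := hx
    have h2 : Polynomial.eval μ g.charpoly = 0 :=
      (Polynomial.mem_roots (g.charpoly_monic.ne_zero)).1 hμ
    rw [Matrix.eval_charpoly] at h2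
    obtain ⟨v, hv, hv'⟩ := Matrix.exists_mulVec_eq_zero_iff.2 h2
    refine (h μ v hv ?_).le
    rw [Matrix.sub_mulVec, sub_eq_zero] at hv'
    rw [← hv']
    ext i
    simp [Matrix.scalar_apply, Matrix.mulVec_diagonal]
  refine (Multiset.sum_le_card_nsmul _ _ h1).trans ?_
  rw [Multiset.card_map, nsmul_eq_mul, mul_one]
  have h3 := Polynomial.card_roots' g.charpoly
  rw [Matrix.charpoly_natDegree_eq_dim, Fintype.card_fin] at h3
  exact_mod_cast h3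

/-- Schur's lemma -/
theorem schur {m : ℕ} (hm : 0 < m) (G : Submonoid (Matrix (Fin m) (Fin m) ℂ))
    (hirr : ∀ U : Submodule ℂ (Fin m → ℂ), (∀ g ∈ G, ∀ v ∈ U, g *ᵥ v ∈ U) → U = ⊥ ∨ U = ⊤)
    (t : Module.End ℂ (Fin m → ℂ)) (ht : ∀ g ∈ G, ∀ v, t (g *ᵥ v) = g *ᵥ (t v)) :
    ∃ c : ℂ, ∀ v, t v = c • v := by
  have : Nonempty (Fin m) := ⟨⟨0, hm⟩⟩
  obtain ⟨c, hc⟩ := Module.End.exists_eigenvalue t
  refine ⟨c, ?_⟩
  have h2 := hirr (t.eigenspace c) (fun g hg v hv => by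
    rw [Module.End.mem_eigenspace_iff] at hv ⊢
    rw [ht g hg, hv, Matrix.mulVec_smul])
  rcases h2 with h2 | h2
  · exact absurd h2 hc
  · intro v
    have h3 : v ∈ t.eigenspace c := by rw [h2]; trivial
    exact Module.End.mem_eigenspace_iff.1 h3

/-- a submonoid acting irreducibly spans all matrices -/
theorem span_eq_top {m : ℕ} (hm : 0 < m) (G : Submonoid (Matrix (Fin m) (Fin m) ℂ))
    (hirr : ∀ U : Submodule ℂ (Fin m → ℂ), (∀ g ∈ G, ∀ v ∈ U, g *ᵥ v ∈ U) → U = ⊥ ∨ U = ⊤) :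
    Submodule.span ℂ (G : Set (Matrix (Fin m) (Fin m) ℂ)) = ⊤ := by
  classical
  have : Nonempty (Fin m) := ⟨⟨0, hm⟩⟩
  obtain ⟨e, he⟩ : ∃ e : Matrix (Fin m) (Fin m) ℂ ≃ₐ[ℂ] _, e = Matrix.toLinAlgEquiv' := ⟨_, rfl⟩
  have hmul : ∀ (x : Matrix (Fin m) (Fin m) ℂ) (v : Fin m → ℂ), e x v = x *ᵥ v := by
    intro x v
    rw [he, Matrix.toLinAlgEquiv'_apply]
  have h1 : Algebra.adjoin ℂ (e '' (G : Set (Matrix (Fin m) (Fin m) ℂ))) = ⊤ := by
    apply burnside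
    · intro U hU
      refine hirr U fun g hg v hv => ?_
      rw [← hmul]
      exact hU _ ⟨g, hg, rfl⟩ v hv
    · intro t ht
      obtain ⟨c, hc⟩ := schur hm G hirr t (fun g hg v => by
        have h3 := congrArg (fun f => f v) (ht _ ⟨g, hg, rfl⟩)
        simp only [Module.End.mul_apply, hmul] at h3
        exact h3.symm)
      refine ⟨c, LinearMap.ext fun v => ?_⟩
      rw [hc v]
      rfl
  have h2 : Algebra.adjoin ℂ (G : Set (Matrix (Fin m) (Fin m) ℂ)) = ⊤ := by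
    have h3 := AlgHom.map_adjoin e.toAlgHom (G : Set (Matrix (Fin m) (Fin m) ℂ))
    have h4 : Function.Injective (Subalgebra.map e.toAlgHom) :=
      Subalgebra.map_injective e.injective
    apply h4
    rw [h3]
    refine h1.trans ?_
    rw [eq_comm, eq_top_iff]
    intro x _
    obtain ⟨y, rfl⟩ := e.surjective x
    exact ⟨y, trivial, rfl⟩
  have h3 := Algebra.adjoin_eq_span ℂ (G : Set (Matrix (Fin m) (Fin m) ℂ))
  rw [h2, Submonoid.closure_eq] at h3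
  rw [← h3]
  rfl

/-- boundedness -/
theorem bounded {m : ℕ} (G : Submonoid (Matrix (Fin m) (Fin m) ℂ))
    (hspan : Submodule.span ℂ (G : Set (Matrix (Fin m) (Fin m) ℂ)) = ⊤)
    (h : ∀ g ∈ G, ∀ (μ : ℂ) (v : Fin m → ℂ), v ≠ 0 → g *ᵥ v = μ • v → ‖μ‖ = 1) :
    ∃ C : ℝ, 0 ≤ C ∧ ∀ g ∈ G, ∀ i j, ‖g i j‖ ≤ C := by
  have h1 : ∀ x : Matrix (Fin m) (Fin m) ℂ, ∃ C : ℝ, 0 ≤ C ∧ ∀ g ∈ G, ‖(g * x).trace‖ ≤ C := by
    intro x
    have hx : x ∈ Submodule.span ℂ (G : Set (Matrix (Fin m) (Fin m) ℂ)) := by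
      rw [hspan]; trivial
    induction hx using Submodule.span_induction with
    | mem x hx =>
      exact ⟨m, Nat.cast_nonneg m, fun g hg => norm_trace_le _ (h _ (G.mul_mem hg hx))⟩
    | zero => exact ⟨0, le_rfl, fun g _ => by simp⟩
    | add x y _ _ hx hy =>
      obtain ⟨a, ha0, ha⟩ := hx
      obtain ⟨b, hb0, hb⟩ := hy
      refine ⟨a + b, by positivity, fun g hg => ?_⟩
      rw [Matrix.mul_add, Matrix.trace_add]
      exact (norm_add_le _ _).trans (add_le_add (ha g hg) (hb g hg))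
    | smul c x _ hx =>
      obtain ⟨a, ha0, ha⟩ := hx
      refine ⟨‖c‖ * a, by positivity, fun g hg => ?_⟩
      rw [Matrix.mul_smul, Matrix.trace_smul, norm_smul]
      exact mul_le_mul_of_nonneg_left (ha g hg) (norm_nonneg c)
  choose C hC0 hC using h1
  refine ⟨∑ i, ∑ j, C (Matrix.single j i 1), ?_, fun g hg i j => ?_⟩
  · exact Finset.sum_nonneg fun i _ => Finset.sum_nonneg fun j _ => hC0 _
  · have h2 : (g * Matrix.single j i (1 : ℂ)).trace = g i j := by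
      rw [Matrix.trace_mul_comm, Matrix.trace]
      rw [Finset.sum_eq_single j]
      · simp
      · intro b _ hb
        rw [Matrix.diag_apply, Matrix.single_mul_apply_of_ne]
        exact hb
      · intro hj
        exact absurd (Finset.mem_univ j) hj
    rw [← h2]
    refine (hC _ g hg).trans ?_
    refine (Finset.single_le_sum (f := fun j => C (Matrix.single j i 1)) (fun j _ => hC0 _)
      (Finset.mem_univ j)).trans ?_
    exact Finset.single_le_sum (f := fun i => ∑ j, C (Matrix.single j i 1))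
      (fun i _ => Finset.sum_nonneg fun j _ => hC0 _) (Finset.mem_univ i)

/-- sum of squares of the entries -/
noncomputable def F {m : ℕ} (X : Matrix (Fin m) (Fin m) ℂ) : ℝ := ∑ i, ∑ j, ‖X i j‖ ^ 2

theorem F_nonneg {m : ℕ} (X : Matrix (Fin m) (Fin m) ℂ) : 0 ≤ F X :=
  Finset.sum_nonneg fun _ _ => Finset.sum_nonneg fun _ _ => by positivity

theorem entry_le_F {m : ℕ} (X : Matrix (Fin m) (Fin m) ℂ) (i j : Fin m) : ‖X i j‖ ^ 2 ≤ F X := by
  unfold F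
  refine (Finset.single_le_sum (f := fun j => ‖X i j‖ ^ 2) (fun j _ => by positivity)
    (Finset.mem_univ j)).trans ?_
  exact Finset.single_le_sum (f := fun i => ∑ j, ‖X i j‖ ^ 2)
    (fun i _ => Finset.sum_nonneg fun j _ => by positivity) (Finset.mem_univ i)

theorem eq_zero_of_F {m : ℕ} (X : Matrix (Fin m) (Fin m) ℂ) (h : F X ≤ 0) : X = 0 := by
  ext i j
  have h1 := (entry_le_F X i j).trans h
  have h2 : ‖X i j‖ = 0 := by
    have : ‖X i j‖ ^ 2 = 0 := le_antisymm h1 (by positivity)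
    exact pow_eq_zero_iff (two_ne_zero) |>.1 this
  simpa using h2

theorem F_mid {m : ℕ} (X Y : Matrix (Fin m) (Fin m) ℂ) :
    F ((1 / 2 : ℂ) • (X + Y)) = (F X + F Y) / 2 - F (X - Y) / 4 := by
  unfold F
  have h : ∀ x y : ℂ, ‖(1 / 2 : ℂ) * (x + y)‖ ^ 2 = (‖x‖ ^ 2 + ‖y‖ ^ 2) / 2 - ‖x - y‖ ^ 2 / 4 := by
    intro x y
    rw [norm_mul, mul_pow]
    simp only [Complex.sq_norm, Complex.normSq_apply]
    simp
    ring
  simp only [Matrix.smul_apply, Matrix.add_apply, Matrix.sub_apply, smul_eq_mul, h]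
  rw [← Finset.sum_add_distrib, Finset.sum_div, Finset.sum_div, ← Finset.sum_sub_distrib]
  refine Finset.sum_congr rfl fun i _ => ?_
  rw [← Finset.sum_add_distrib, Finset.sum_div, Finset.sum_div, ← Finset.sum_sub_distrib]

theorem continuous_F {m : ℕ} : Continuous (F : Matrix (Fin m) (Fin m) ℂ → ℝ) := by
  unfold F
  refine continuous_finsetSum _ fun i _ => continuous_finsetSum _ fun j _ => ?_
  exact ((continuous_id.matrix_elem i j).norm).pow 2

theorem entry_le {m : ℕ} {A B : Matrix (Fin m) (Fin m) ℂ} {C : ℝ} (hC : 0 ≤ C)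
    (hA : ∀ i j, ‖A i j‖ ≤ C) (hB : ∀ i j, ‖B i j‖ ≤ C) (X : Matrix (Fin m) (Fin m) ℂ)
    (i j : Fin m) : ‖(A * X * B) i j‖ ≤ C ^ 2 * ∑ k, ∑ l, ‖X k l‖ := by
  rw [Matrix.mul_apply]
  calc ‖∑ l, (A * X) i l * B l j‖ ≤ ∑ l, ‖(A * X) i l * B l j‖ := norm_sum_le _ _
    _ ≤ ∑ l, (∑ k, C * ‖X k l‖) * C := by
      refine Finset.sum_le_sum fun l _ => ?_
      rw [norm_mul]
      refine mul_le_mul ?_ (hB l j) (norm_nonneg _) (Finset.sum_nonneg fun k _ => by positivity)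
      rw [Matrix.mul_apply]
      refine (norm_sum_le _ _).trans (Finset.sum_le_sum fun k _ => ?_)
      rw [norm_mul]
      exact mul_le_mul_of_nonneg_right (hA i k) (norm_nonneg _)
    _ = C ^ 2 * ∑ k, ∑ l, ‖X k l‖ := by
      have h0 : ∑ k, ∑ l, ‖X k l‖ = ∑ l, ∑ k, ‖X k l‖ := Finset.sum_comm
      rw [h0, Finset.mul_sum]
      refine Finset.sum_congr rfl fun l _ => ?_
      rw [← Finset.mul_sum]
      ring

theorem F_conj_le {m : ℕ} {A B : Matrix (Fin m) (Fin m) ℂ} {C : ℝ} (hC : 0 ≤ C)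
    (hA : ∀ i j, ‖A i j‖ ≤ C) (hB : ∀ i j, ‖B i j‖ ≤ C) (X : Matrix (Fin m) (Fin m) ℂ) :
    F (A * X * B) ≤ (m : ℝ) ^ 2 * (C ^ 4 * (m : ℝ) ^ 2) * F X := by
  have h1 : (∑ k, ∑ l, ‖X k l‖) ^ 2 ≤ (m : ℝ) ^ 2 * F X := by
    have h2 := sq_sum_le_card_mul_sum_sq (s := (Finset.univ : Finset (Fin m × Fin m)))
      (f := fun t => ‖X t.1 t.2‖)
    rw [Finset.card_univ, Fintype.card_prod, Fintype.card_fin,
      Fintype.sum_prod_type, Fintype.sum_prod_type] at h2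
    push_cast at h2
    rw [sq (m : ℝ)]
    exact h2
  calc F (A * X * B) ≤ ∑ i : Fin m, ∑ j : Fin m, C ^ 4 * ((m : ℝ) ^ 2 * F X) := by
        unfold F
        refine Finset.sum_le_sum fun i _ => Finset.sum_le_sum fun j _ => ?_
        have h3 := entry_le hC hA hB X i j
        calc ‖(A * X * B) i j‖ ^ 2 ≤ (C ^ 2 * ∑ k, ∑ l, ‖X k l‖) ^ 2 := by
              exact pow_le_pow_left₀ (norm_nonneg _) h3 2
          _ = C ^ 4 * (∑ k, ∑ l, ‖X k l‖) ^ 2 := by ring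
          _ ≤ C ^ 4 * ((m : ℝ) ^ 2 * F X) := by gcongr
    _ = _ := by
      simp only [Finset.sum_const, Finset.card_univ, Fintype.card_fin, nsmul_eq_mul]
      ring

/-- A bounded group acting by conjugation on a closed set of matrices stable under midpoints has a
fixed point. -/
theorem exists_fixed {m : ℕ} (G : Submonoid (Matrix (Fin m) (Fin m) ℂ))
    (hG : ∀ g ∈ G, ∃ g' ∈ G, g * g' = 1) {C : ℝ} (hC : 0 ≤ C)
    (hb : ∀ g ∈ G, ∀ i j, ‖g i j‖ ≤ C) (S : Set (Matrix (Fin m) (Fin m) ℂ)) (hS : IsClosed S)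
    (hmid : ∀ X ∈ S, ∀ Y ∈ S, (1 / 2 : ℂ) • (X + Y) ∈ S)
    (hinv : ∀ g ∈ G, ∀ Y ∈ S, g * Y * g⁻¹ ∈ S) (hne : S.Nonempty) :
    ∃ Y ∈ S, ∀ g ∈ G, g * Y * g⁻¹ = Y := by
  have hginv : ∀ g ∈ G, g⁻¹ ∈ G ∧ g * g⁻¹ = 1 ∧ g⁻¹ * g = 1 := by
    intro g hg
    obtain ⟨g', hg', h⟩ := hG g hg
    have h1 : g⁻¹ = g' := Matrix.inv_eq_right_inv h
    rw [h1]
    exact ⟨hg', h, mul_eq_one_comm.1 h⟩
  obtain ⟨K, hK⟩ : ∃ K : ℝ, K = (m : ℝ) ^ 2 * (C ^ 4 * (m : ℝ) ^ 2) := ⟨_, rfl⟩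
  have hK0 : 0 ≤ K := by rw [hK]; positivity
  have hconj : ∀ g ∈ G, ∀ X : Matrix (Fin m) (Fin m) ℂ, F (g * X * g⁻¹) ≤ K * F X := by
    intro g hg X
    rw [hK]
    exact F_conj_le hC (hb g hg) (hb _ (hginv g hg).1) X
  have hlow : ∀ g ∈ G, ∀ X : Matrix (Fin m) (Fin m) ℂ, F X ≤ K * F (g * X * g⁻¹) := by
    intro g hg X
    obtain ⟨h1, h2, h3⟩ := hginv g hg
    have h4 : F (g⁻¹ * (g * X * g⁻¹) * g) ≤ K * F (g * X * g⁻¹) := by
      rw [hK]
      exact F_conj_le hC (hb _ h1) (hb g hg) _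
    have h5 : g⁻¹ * (g * X * g⁻¹) * g = X := by
      calc g⁻¹ * (g * X * g⁻¹) * g = (g⁻¹ * g) * X * (g⁻¹ * g) := by
            simp only [Matrix.mul_assoc]
        _ = X := by rw [h3, Matrix.one_mul, Matrix.mul_one]
    rwa [h5] at h4
  have hcomp : ∀ g ∈ G, ∀ h ∈ G, ∀ X : Matrix (Fin m) (Fin m) ℂ,
      g * (h * X * h⁻¹) * g⁻¹ = (g * h) * X * (g * h)⁻¹ := by
    intro g _ h _ X
    rw [Matrix.mul_inv_rev]
    simp only [Matrix.mul_assoc]
  have hcont : ∀ g : Matrix (Fin m) (Fin m) ℂ,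
      Continuous (fun Y : Matrix (Fin m) (Fin m) ℂ => F (g * Y * g⁻¹)) := by
    intro g
    exact continuous_F.comp ((continuous_const.matrix_mul continuous_id).matrix_mul
      continuous_const)
  obtain ⟨Y₁, hY₁⟩ := hne
  obtain ⟨T, hT⟩ : ∃ T : Set (Matrix (Fin m) (Fin m) ℂ),
    T = {Y | Y ∈ S ∧ ∀ g ∈ G, F (g * Y * g⁻¹) ≤ K * F Y₁} := ⟨_, rfl⟩
  have hTclosed : IsClosed T := by
    have h1 : T = S ∩ ⋂ g ∈ G, {Y | F (g * Y * g⁻¹) ≤ K * F Y₁} := by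
      rw [hT]
      ext Y
      simp
    rw [h1]
    refine hS.inter (isClosed_biInter fun g _ => ?_)
    exact isClosed_le (hcont g) continuous_const
  have hTcompact : IsCompact T := by
    have h1 : IsCompact (Set.univ.pi fun _ : Fin m => Set.univ.pi fun _ : Fin m =>
        Metric.closedBall (0 : ℂ) (1 + K * F Y₁)) :=
      isCompact_univ_pi fun _ => isCompact_univ_pi fun _ => isCompact_closedBall _ _
    refine IsCompact.of_isClosed_subset h1 hTclosed ?_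
    intro Y hY i _ j _
    rw [hT] at hY
    have h2 := hY.2 1 G.one_mem
    rw [inv_one, Matrix.one_mul, Matrix.mul_one] at h2
    have h3 := (entry_le_F Y i j).trans h2
    rw [mem_closedBall_zero_iff]
    nlinarith [norm_nonneg (Y i j), sq_nonneg (‖Y i j‖ - 1)]
  have hTne : T.Nonempty := ⟨Y₁, by
    rw [hT]
    exact ⟨hY₁, fun g hg => hconj g hg Y₁⟩⟩
  obtain ⟨N, hN⟩ : ∃ N : Matrix (Fin m) (Fin m) ℂ → ℝ, ∀ Y, N Y =
      ⨆ g : G, F ((g : Matrix (Fin m) (Fin m) ℂ) * Y * (g : Matrix _ _ ℂ)⁻¹) :=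
    ⟨_, fun _ => rfl⟩
  have hbdd : ∀ Y : Matrix (Fin m) (Fin m) ℂ, BddAbove (Set.range fun g : G =>
      F ((g : Matrix (Fin m) (Fin m) ℂ) * Y * (g : Matrix _ _ ℂ)⁻¹)) := by
    intro Y
    refine ⟨K * F Y, ?_⟩
    rintro _ ⟨g, rfl⟩
    exact hconj g g.2 Y
  have hle : ∀ g ∈ G, ∀ Y, F (g * Y * g⁻¹) ≤ N Y := by
    intro g hg Y
    rw [hN]
    exact le_ciSup (hbdd Y) ⟨g, hg⟩
  have hlsc : LowerSemicontinuous N := by
    rw [show N = fun Y => ⨆ g : G, F ((g : Matrix (Fin m) (Fin m) ℂ) * Y *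
      (g : Matrix _ _ ℂ)⁻¹) from funext hN]
    exact lowerSemicontinuous_ciSup hbdd fun g => (hcont _).lowerSemicontinuous
  obtain ⟨Y₀, hY₀, hmin⟩ := LowerSemicontinuousOn.exists_isMinOn hTne hTcompact
    (hlsc.lowerSemicontinuousOn T)
  have hY₀' := hY₀
  rw [hT] at hY₀'
  refine ⟨Y₀, hY₀'.1, fun g₀ hg₀ => ?_⟩
  obtain ⟨Y', hY'⟩ : ∃ Y', Y' = g₀ * Y₀ * g₀⁻¹ := ⟨_, rfl⟩
  rw [← hY']
  have hY'T : Y' ∈ S ∧ ∀ g ∈ G, F (g * Y' * g⁻¹) ≤ K * F Y₁ := by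
    rw [hY']
    refine ⟨hinv g₀ hg₀ _ hY₀'.1, fun g hg => ?_⟩
    rw [hcomp g hg g₀ hg₀]
    exact hY₀'.2 _ (G.mul_mem hg hg₀)
  have hdist : ∀ g X Y : Matrix (Fin m) (Fin m) ℂ, g * ((1 / 2 : ℂ) • (X + Y)) * g⁻¹ =
      (1 / 2 : ℂ) • (g * X * g⁻¹ + g * Y * g⁻¹) := by
    intro g X Y
    rw [Matrix.mul_smul, Matrix.smul_mul, Matrix.mul_add, Matrix.add_mul]
  have hdiff : ∀ g X Y : Matrix (Fin m) (Fin m) ℂ, g * X * g⁻¹ - g * Y * g⁻¹ =
      g * (X - Y) * g⁻¹ := by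
    intro g X Y
    rw [Matrix.mul_sub, Matrix.sub_mul]
  have hM : (1 / 2 : ℂ) • (Y₀ + Y') ∈ T := by
    rw [hT]
    refine ⟨hmid _ hY₀'.1 _ hY'T.1, fun g hg => ?_⟩
    rw [hdist, F_mid]
    have h1 := hY₀'.2 g hg
    have h2 := hY'T.2 g hg
    have h3 := F_nonneg (g * Y₀ * g⁻¹ - g * Y' * g⁻¹)
    linarith
  have hNM : N ((1 / 2 : ℂ) • (Y₀ + Y')) ≤ N Y₀ - F (Y₀ - Y') / (4 * (K + 1)) := by
    rw [hN ((1 / 2 : ℂ) • (Y₀ + Y'))]
    have : Nonempty G := ⟨1⟩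
    refine ciSup_le fun g => ?_
    rw [hdist, F_mid, hdiff]
    have h1 := hle g g.2 Y₀
    have h2 : F ((g : Matrix (Fin m) (Fin m) ℂ) * Y' * (g : Matrix _ _ ℂ)⁻¹) ≤ N Y₀ := by
      rw [hY', hcomp g g.2 g₀ hg₀]
      exact hle _ (G.mul_mem g.2 hg₀) Y₀
    have h3 := hlow g g.2 (Y₀ - Y')
    have h4 : F (Y₀ - Y') / (4 * (K + 1)) ≤
        F ((g : Matrix (Fin m) (Fin m) ℂ) * (Y₀ - Y') * (g : Matrix _ _ ℂ)⁻¹) / 4 := by
      rw [div_le_div_iff₀ (by positivity) (by norm_num)]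
      have h5 := F_nonneg ((g : Matrix (Fin m) (Fin m) ℂ) * (Y₀ - Y') * (g : Matrix _ _ ℂ)⁻¹)
      nlinarith
    linarith
  have h1 : F (Y₀ - Y') / (4 * (K + 1)) ≤ 0 := by
    have h2 : N Y₀ ≤ N ((1 / 2 : ℂ) • (Y₀ + Y')) := hmin hM
    linarith
  have h2 : F (Y₀ - Y') ≤ 0 := by
    by_contra h
    push Not at h
    have : 0 < F (Y₀ - Y') / (4 * (K + 1)) := by positivity
    linarith
  have h3 := eq_zero_of_F _ h2
  rw [sub_eq_zero] at h3
  exact h3.symm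

theorem hf_mulVec {m : ℕ} (H g : Matrix (Fin m) (Fin m) ℂ) (hg : gᴴ * H * g = H)
    (u v : Fin m → ℂ) : hf H (g *ᵥ u) (g *ᵥ v) = hf H u v := by
  unfold hf
  rw [Matrix.star_mulVec, Matrix.mulVec_mulVec, ← Matrix.dotProduct_mulVec,
    Matrix.mulVec_mulVec, ← Matrix.mul_assoc, hg]

theorem hf_conj {m : ℕ} (H : Matrix (Fin m) (Fin m) ℂ) (hH : H.IsHermitian)
    (u v : Fin m → ℂ) : conj (hf H u v) = hf H v u := by
  unfold hf
  rw [starRingEnd_apply, Matrix.star_dotProduct, Matrix.star_mulVec, hH.eq, star_star,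
    Matrix.dotProduct_mulVec]

theorem continuous_hf {m : ℕ} (H : Matrix (Fin m) (Fin m) ℂ) (w : Fin m → ℂ) :
    Continuous (fun Y : Matrix (Fin m) (Fin m) ℂ => hf H w (Y *ᵥ w)) := by
  unfold hf
  exact continuous_const.dotProduct (continuous_const.matrix_mulVec
    (continuous_id.matrix_mulVec continuous_const))

/-- M3.  A group of matrices preserving an indefinite Hermitian form and acting irreducibly has an
element with an eigenvalue of modulus different from one. -/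
theorem M3 {m : ℕ} (H : Matrix (Fin m) (Fin m) ℂ) (hH : H.IsHermitian)
    (hpos : ∃ v, 0 < (hf H v v).re) (hneg : ∃ v, (hf H v v).re < 0)
    (G : Submonoid (Matrix (Fin m) (Fin m) ℂ)) (hG : ∀ g ∈ G, ∃ g' ∈ G, g * g' = 1)
    (hGH : ∀ g ∈ G, gᴴ * H * g = H)
    (hirr : ∀ U : Submodule ℂ (Fin m → ℂ), (∀ g ∈ G, ∀ v ∈ U, g *ᵥ v ∈ U) → U = ⊥ ∨ U = ⊤) :
    ∃ g ∈ G, ∃ (μ : ℂ) (v : Fin m → ℂ), v ≠ 0 ∧ g *ᵥ v = μ • v ∧ ‖μ‖ ≠ 1 := by
  by_contra hcon
  push Not at hcon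
  obtain ⟨w₀, hw₀⟩ := hpos
  obtain ⟨e, he⟩ := hneg
  have hm : 0 < m := by
    rcases Nat.eq_zero_or_pos m with h | h
    · subst h
      simp [hf] at hw₀
    · exact h
  have hspan := span_eq_top hm G hirr
  obtain ⟨C, hC, hb⟩ := bounded G hspan hcon
  have hginv : ∀ g ∈ G, g⁻¹ ∈ G ∧ g * g⁻¹ = 1 ∧ g⁻¹ * g = 1 := by
    intro g hg
    obtain ⟨g', hg', h⟩ := hG g hg
    have h1 : g⁻¹ = g' := Matrix.inv_eq_right_inv h
    rw [h1]
    exact ⟨hg', h, mul_eq_one_comm.1 h⟩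
  obtain ⟨S, hS⟩ : ∃ S : Set (Matrix (Fin m) (Fin m) ℂ), S = {Y | Y.trace = hf H e e ∧
      ∀ w, 0 ≤ (hf H w (Y *ᵥ w)).re} := ⟨_, rfl⟩
  have hSclosed : IsClosed S := by
    have h1 : S = {Y | Y.trace = hf H e e} ∩ ⋂ w, {Y | 0 ≤ (hf H w (Y *ᵥ w)).re} := by
      rw [hS]
      ext Y
      simp
    rw [h1]
    refine (isClosed_eq continuous_id.matrix_trace continuous_const).inter
      (isClosed_iInter fun w => ?_)
    exact isClosed_le continuous_const (Complex.continuous_re.comp (continuous_hf H w))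
  have hmid : ∀ X ∈ S, ∀ Y ∈ S, (1 / 2 : ℂ) • (X + Y) ∈ S := by
    intro X hX Y hY
    rw [hS] at hX hY ⊢
    refine ⟨?_, fun w => ?_⟩
    · rw [Matrix.trace_smul, Matrix.trace_add, hX.1, hY.1, smul_eq_mul]
      ring
    · have h1 := hX.2 w
      have h2 := hY.2 w
      have h3 : hf H w (((1 / 2 : ℂ) • (X + Y)) *ᵥ w) =
          (1 / 2 : ℂ) * (hf H w (X *ᵥ w) + hf H w (Y *ᵥ w)) := by
        unfold hf
        rw [Matrix.smul_mulVec, Matrix.add_mulVec, Matrix.mulVec_smul, Matrix.mulVec_add,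
          dotProduct_smul, dotProduct_add, smul_eq_mul]
      rw [h3]
      simp
      linarith
  have hinv : ∀ g ∈ G, ∀ Y ∈ S, g * Y * g⁻¹ ∈ S := by
    intro g hg Y hY
    obtain ⟨h1, h2, h3⟩ := hginv g hg
    rw [hS] at hY ⊢
    refine ⟨?_, fun w => ?_⟩
    · rw [Matrix.trace_mul_comm, ← Matrix.mul_assoc, h3, Matrix.one_mul]
      exact hY.1
    · have h4 := hY.2 (g⁻¹ *ᵥ w)
      rw [← hf_mulVec H g (hGH g hg), Matrix.mulVec_mulVec, h2, Matrix.one_mulVec,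
        Matrix.mulVec_mulVec, Matrix.mulVec_mulVec] at h4
      exact h4
  have hne : S.Nonempty := by
    refine ⟨Matrix.vecMulVec e (star e ᵥ* H), ?_⟩
    rw [hS]
    refine ⟨?_, fun w => ?_⟩
    · rw [Matrix.trace_vecMulVec, dotProduct_comm, ← Matrix.dotProduct_mulVec]
      rfl
    · have h1 : Matrix.vecMulVec e (star e ᵥ* H) *ᵥ w = hf H e w • e := by
        rw [Matrix.vecMulVec_mulVec, ← Matrix.dotProduct_mulVec]
        ext i
        simp [hf, mul_comm]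
      have h2 : hf H w (hf H e w • e) = hf H e w * hf H w e := by
        unfold hf
        rw [Matrix.mulVec_smul, dotProduct_smul, smul_eq_mul]
      rw [h1, h2, ← hf_conj H hH e w, Complex.mul_conj]
      exact_mod_cast Complex.normSq_nonneg _
  obtain ⟨Y, hYS, hY⟩ := exists_fixed G hG hC hb S hSclosed hmid hinv hne
  have hcomm : ∀ g ∈ G, Y * g = g * Y := by
    intro g hg
    obtain ⟨h1, h2, h3⟩ := hginv g hg
    calc Y * g = (g * Y * g⁻¹) * g := by rw [hY g hg]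
      _ = g * Y := by rw [Matrix.mul_assoc, h3, Matrix.mul_one]
  obtain ⟨c, hc⟩ := schur hm G hirr (Matrix.mulVecLin Y) (fun g hg v => by
    rw [Matrix.mulVecLin_apply, Matrix.mulVecLin_apply, Matrix.mulVec_mulVec, hcomm g hg,
      ← Matrix.mulVec_mulVec])
  simp only [Matrix.mulVecLin_apply] at hc
  have hYc : Y = c • (1 : Matrix (Fin m) (Fin m) ℂ) := by
    apply Matrix.ext_of_mulVec_single
    intro i
    rw [hc, Matrix.smul_mulVec, Matrix.one_mulVec]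
  rw [hS] at hYS
  obtain ⟨htr, hYpos⟩ := hYS
  rw [hYc, Matrix.trace_smul, Matrix.trace_one, Fintype.card_fin, smul_eq_mul] at htr
  have him : (hf H e e).im = 0 := by
    have h1 := hf_conj H hH e e
    exact Complex.conj_eq_iff_im.1 h1
  have hmR : (0 : ℝ) < m := by exact_mod_cast hm
  have hcre : c.re < 0 := by
    have h1 : c.re * m = (hf H e e).re := by
      rw [← htr]
      simp
    by_contra h
    push Not at h
    have : 0 ≤ c.re * m := by positivity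
    linarith
  have hcim : c.im = 0 := by
    have h1 : c.im * m = (hf H e e).im := by
      rw [← htr]
      simp
    rw [him] at h1
    rcases mul_eq_zero.1 h1 with h2 | h2
    · exact h2
    · exact absurd h2 hmR.ne'
  have h1 := hYpos w₀
  have h2 : hf H w₀ (Y *ᵥ w₀) = c * hf H w₀ w₀ := by
    rw [hc]
    unfold hf
    rw [Matrix.mulVec_smul, dotProduct_smul, smul_eq_mul]
  rw [h2, Complex.mul_re, hcim] at h1
  nlinarith

end Pool.Agent.Helper20.Ball
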